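import Pool.Agent.W622.ETC.Stm

set_option autoImplicit false
set_option linter.unusedVariables false

/-! The rank of an alternating form is even. -/

namespace Pool.Agent.W930.ELT

open Pool.Agent.W622.ETC Module

/-- two functionals with the values `(0,1)` and `(1,0)` at two points span a plane -/
theorem finrank_pair {V : Type} [AddCommGroup V] [Module (ZMod 2) V] [Finite V] {f g : Dl V}
    {a b : V} (fa : f a = 0) (fb : f b = 1) (ga : g a = 1) (gb : g b = 0) :
    finrank (ZMod 2) (Submodule.span (ZMod 2) {f, g}) = 2 := by
  have h : LinearIndependent (ZMod 2) ![f, g] := by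
    rw [LinearIndependent.pair_iff]
    intro s t hst
    have h1 := congrArg (fun x : Dl V => x a) hst
    have h2 := congrArg (fun x : Dl V => x b) hst
    simp only [LinearMap.add_apply, LinearMap.smul_apply, smul_eq_mul, fa, fb, ga, gb, mul_zero,
      mul_one, zero_add, add_zero, LinearMap.zero_apply] at h1 h2
    exact ⟨h2, h1⟩
  have h1 := finrank_span_eq_card h
  rw [Matrix.range_cons_cons_empty] at h1
  simpa using h1

theorem even_aux {V : Type} [AddCommGroup V] [Module (ZMod 2) V] [Finite V] (n : ℕ) :
    ∀ ω : Frm V, Alt ω → finrank (ZMod 2) (sp ω) = n → Even n := by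
  induction n using Nat.strong_induction_on with
  | _ n ih =>
    intro ω hω hn
    by_cases h0 : ω = 0
    · rw [h0, sp_zero, finrank_bot] at hn
      rw [← hn]
      exact Even.zero
    · obtain ⟨a, ha⟩ : ∃ a, ω a ≠ 0 := by
        by_contra hc
        push Not at hc
        exact h0 (LinearMap.ext hc)
      obtain ⟨b, hb⟩ : ∃ b, ω a b ≠ 0 := by
        by_contra hc
        push Not at hc
        exact ha (LinearMap.ext hc)
      have hab : ω a b = 1 := z_ne hb
      have hba : ω b a = 1 := by rw [hω.symm]; exact hab
      have haa : ω a a = 0 := hω a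
      have hbb : ω b b = 0 := hω b
      set f := ω a with hf
      set g := ω b with hg
      set ω' : Frm V := ω + wd f g with hω'
      have hA' : Alt ω' := hω.add (wd_alt f g)
      have w1 : wd f g a = f := by
        rw [wd_apply, haa, hba, zero_smul, zero_add, one_smul]
      have w2 : wd f g b = g := by
        rw [wd_apply, hab, hbb, zero_smul, add_zero, one_smul]
      have z1 : ω' a = 0 := by
        rw [hω', LinearMap.add_apply, w1, ← hf, vadd]
      have z2 : ω' b = 0 := by
        rw [hω', LinearMap.add_apply, w2, ← hg, vadd]
      have hsp : sp (wd f g) = Submodule.span (ZMod 2) {f, g} := by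
        refine le_antisymm (sp_wd_le f g) ?_
        rw [Submodule.span_le]
        rintro x (rfl | hx)
        · exact ⟨a, w1⟩
        · rw [Set.mem_singleton_iff.1 hx]
          exact ⟨b, w2⟩
      have hdis : Disjoint (sp ω') (sp (wd f g)) := by
        rw [Submodule.disjoint_def]
        intro x hx hx'
        rw [hsp, span_pair_mem] at hx'
        obtain ⟨v, rfl⟩ := hx
        have e1 : ω' v a = 0 := hA'.mem_ann z1 v
        have e2 : ω' v b = 0 := hA'.mem_ann z2 v
        rcases hx' with h | h | h | h
        · exact h
        · rw [h, hab] at e2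
          exact absurd e2 one_ne_zero
        · rw [h, hba] at e1
          exact absurd e1 one_ne_zero
        · rw [h, LinearMap.add_apply, haa, hba, zero_add] at e1
          exact absurd e1 one_ne_zero
      have hsum : ω = ω' + wd f g := by
        refine LinearMap.ext fun v => ?_
        rw [hω', LinearMap.add_apply, LinearMap.add_apply, add_assoc, vadd, add_zero]
      have h1 : sp ω = sp ω' ⊔ sp (wd f g) := by
        conv_lhs => rw [hsum]
        exact sp_add hA' (wd_alt f g) hdis
      have h2 := Submodule.finrank_sup_add_finrank_inf_eq (sp ω') (sp (wd f g))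
      rw [hdis.eq_bot, finrank_bot, ← h1, hn, hsp, finrank_pair haa hab hba hbb] at h2
      have h3 := ih (finrank (ZMod 2) (sp ω')) (by omega) ω' hA' rfl
      obtain ⟨k, hk⟩ := h3
      exact ⟨k + 1, by omega⟩

theorem t_EVEN : S_EVEN := fun V _ _ _ ω hω => even_aux _ ω hω rfl

end Pool.Agent.W930.ELT
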